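import Mathlib
import Pool.Agent.N718.DC.Stm4

/-!
# Part RDC of project DW: few families are nearly degenerate over the real numbers
-/

set_option autoImplicit false
set_option linter.all false

namespace Pool.Agent.N523.DW

open Finset Pool.Agent.N718.DC

theorem card_near (a b : ℝ) (hb : 0 ≤ b) :
    ((Icc ⌈-a - b⌉ ⌊-a + b⌋).card : ℝ) ≤ 2 * b + 1 := by
  rw [Int.card_Icc]
  by_cases h : 0 ≤ ⌊-a + b⌋ + 1 - ⌈-a - b⌉
  · have h1 : (((⌊-a + b⌋ + 1 - ⌈-a - b⌉).toNat : ℕ) : ℝ) = ((⌊-a + b⌋ + 1 - ⌈-a - b⌉ : ℤ) : ℝ) := by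
      have := Int.toNat_of_nonneg h
      exact_mod_cast congrArg (fun z : ℤ => (z : ℝ)) this
    rw [h1]
    push_cast
    have h2 := Int.floor_le (-a + b)
    have h3 := Int.le_ceil (-a - b)
    linarith
  · have h1 : (⌊-a + b⌋ + 1 - ⌈-a - b⌉).toNat = 0 := Int.toNat_of_nonpos (by omega)
    rw [h1]
    push_cast
    linarith

open Classical in
theorem count2 {κ : Type} [Fintype κ] [DecidableEq κ] (x y : κ) (hxy : x ≠ y) (g h : (κ → ℤ) → ℝ)
    (hg : ∀ c t, g (Function.update c x t) = g c)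
    (hh : ∀ c t, h (Function.update c y t) = h c)
    (hh' : ∀ c t, h (Function.update c x t) = h c) (H : ℕ) (b : ℝ) (hb : 0 ≤ b) :
    (((Fintype.piFinset (fun _ : κ => Icc (-(H : ℤ)) H)).filter
      (fun c => |(c x : ℝ) + g c| ≤ b ∧ |(c y : ℝ) + h c| ≤ b)).card : ℝ) *
        ((2 * H + 1 : ℕ) : ℝ) ^ 2 ≤
      (2 * b + 1) ^ 2 * ((2 * H + 1 : ℕ) : ℝ) ^ Fintype.card κ := by
  set T := (Fintype.piFinset (fun _ : κ => Icc (-(H : ℤ)) H)).filter
      (fun c => |(c x : ℝ) + g c| ≤ b ∧ |(c y : ℝ) + h c| ≤ b) with hT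
  set P : Finset (κ → ℤ) :=
    Fintype.piFinset (fun j : κ => if j = x ∨ j = y then {0} else Icc (-(H : ℤ)) H) with hP
  have hcard : (Icc (-(H : ℤ)) H).card = 2 * H + 1 := by
    rw [Int.card_Icc]
    omega
  have hPc : P.card * (2 * H + 1) ^ 2 = (2 * H + 1) ^ Fintype.card κ := by
    rw [hP, Fintype.card_piFinset]
    have e1 : (2 * H + 1) ^ 2 = ∏ j : κ, if j = x ∨ j = y then 2 * H + 1 else 1 := by
      rw [Finset.prod_ite, prod_const, prod_const_one, mul_one]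
      have : (univ.filter fun j => j = x ∨ j = y) = {x, y} := by ext; simp
      rw [this, card_pair hxy]
    have e2 : (2 * H + 1) ^ Fintype.card κ = ∏ _j : κ, (2 * H + 1) := by simp
    rw [e1, e2, ← prod_mul_distrib]
    refine prod_congr rfl fun j _ => ?_
    by_cases h : j = x ∨ j = y
    · simp [h]
    · simp only [if_neg h, mul_one]
      exact hcard
  have hmaps : ∀ c ∈ T, Function.update (Function.update c x 0) y 0 ∈ P := by
    intro c hc
    rw [hP, Fintype.mem_piFinset]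
    intro j
    by_cases h : j = x ∨ j = y
    · rw [if_pos h]
      by_cases hy : j = y
      · subst hy
        simp
      · rw [Function.update_of_ne hy]
        have hx : j = x := h.resolve_right hy
        subst hx
        simp
    · rw [if_neg h]
      have h1 : j ≠ y := fun h' => h (Or.inr h')
      have h2 : j ≠ x := fun h' => h (Or.inl h')
      rw [Function.update_of_ne h1, Function.update_of_ne h2]
      exact Fintype.mem_piFinset.1 (mem_filter.1 hc).1 j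
  have hfib : ∀ c' ∈ P, ((T.filter fun c =>
      Function.update (Function.update c x 0) y 0 = c').card : ℝ) ≤ (2 * b + 1) ^ 2 := by
    intro c' _
    have hb1 : (0 : ℝ) ≤ 2 * b + 1 := by linarith
    have hle : (((Icc ⌈-h c' - b⌉ ⌊-h c' + b⌋).sigma (fun v =>
        Icc ⌈-g (Function.update c' y v) - b⌉ ⌊-g (Function.update c' y v) + b⌋)).card : ℝ) ≤
          (2 * b + 1) ^ 2 := by
      rw [card_sigma]
      push_cast
      refine (sum_le_card_nsmul _ _ (2 * b + 1) fun v _ => card_near _ b hb).trans ?_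
      rw [nsmul_eq_mul, sq]
      exact mul_le_mul_of_nonneg_right (card_near _ b hb) hb1
    refine le_trans ?_ hle
    refine Nat.cast_le.2 (card_le_card_of_injOn (fun c => (⟨c y, c x⟩ : Σ _ : ℤ, ℤ)) ?_ ?_)
    · intro c hc
      have hc' := mem_filter.1 hc
      have h1 := (mem_filter.1 hc'.1).2
      have h2 : h c = h c' := by rw [← hc'.2, hh, hh']
      have h3 : g c = g (Function.update c' y (c y)) := by
        rw [← hc'.2, Function.update_idem]
        have : Function.update (Function.update c x 0) y (c y) = Function.update c x 0 := by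
          conv_lhs => rw [← Function.update_of_ne (Ne.symm hxy) (0 : ℤ) c]
          exact Function.update_eq_self y _
        rw [this, hg]
      obtain ⟨h4, h5⟩ := h1
      rw [h3] at h4
      rw [h2] at h5
      obtain ⟨h6, h7⟩ := abs_le.1 h4
      obtain ⟨h8, h9⟩ := abs_le.1 h5
      rw [mem_coe, mem_sigma]
      refine ⟨mem_Icc.2 ⟨Int.ceil_le.2 ?_, Int.le_floor.2 ?_⟩,
        mem_Icc.2 ⟨Int.ceil_le.2 ?_, Int.le_floor.2 ?_⟩⟩
      · show -h c' - b ≤ (c y : ℝ)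
        linarith
      · show (c y : ℝ) ≤ -h c' + b
        linarith
      · show -g (Function.update c' y (c y)) - b ≤ (c x : ℝ)
        linarith
      · show (c x : ℝ) ≤ -g (Function.update c' y (c y)) + b
        linarith
    · intro c hc d hd hcd
      have hc' := (mem_filter.1 hc).2
      have hd' := (mem_filter.1 hd).2
      have h1 := hc'.trans hd'.symm
      have h2 : c y = d y := congrArg Sigma.fst hcd
      have h3 : c x = d x := by
        have := (Sigma.mk.injEq _ _ _ _).mp hcd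
        exact eq_of_heq this.2
      funext j
      by_cases hx : j = x
      · subst hx; exact h3
      · by_cases hy : j = y
        · subst hy; exact h2
        · have := congrFun h1 j
          rwa [Function.update_of_ne hy, Function.update_of_ne hx, Function.update_of_ne hy,
            Function.update_of_ne hx] at this
  have hsum : (T.card : ℝ) ≤ P.card * (2 * b + 1) ^ 2 := by
    rw [card_eq_sum_card_fiberwise hmaps]
    push_cast
    refine (sum_le_card_nsmul _ _ _ hfib).trans ?_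
    rw [nsmul_eq_mul]
  have hPc' : (P.card : ℝ) * ((2 * H + 1 : ℕ) : ℝ) ^ 2 =
      ((2 * H + 1 : ℕ) : ℝ) ^ Fintype.card κ := by
    exact_mod_cast hPc
  calc (T.card : ℝ) * ((2 * H + 1 : ℕ) : ℝ) ^ 2
      ≤ (P.card * (2 * b + 1) ^ 2) * ((2 * H + 1 : ℕ) : ℝ) ^ 2 :=
        mul_le_mul_of_nonneg_right hsum (by positivity)
    _ = (2 * b + 1) ^ 2 * ((P.card : ℝ) * ((2 * H + 1 : ℕ) : ℝ) ^ 2) := by ring
    _ = _ := by rw [hPc']

/-! ### Lipschitz bounds -/

theorem pow_lip (s t : ℝ) (hs : |s| ≤ 1) (ht : |t| ≤ 1) (n : ℕ) :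
    |t ^ n - s ^ n| ≤ n * |t - s| := by
  induction n with
  | zero => simp
  | succ n ih =>
    have e1 : t ^ (n + 1) - s ^ (n + 1) = t * (t ^ n - s ^ n) + (t - s) * s ^ n := by ring
    rw [e1]
    have h1 : |t * (t ^ n - s ^ n)| ≤ n * |t - s| := by
      rw [abs_mul]
      calc |t| * |t ^ n - s ^ n| ≤ 1 * |t ^ n - s ^ n| :=
            mul_le_mul_of_nonneg_right ht (abs_nonneg _)
        _ ≤ n * |t - s| := by rw [one_mul]; exact ih
    have h2 : |(t - s) * s ^ n| ≤ |t - s| := by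
      rw [abs_mul, abs_pow]
      calc |t - s| * |s| ^ n ≤ |t - s| * 1 :=
            mul_le_mul_of_nonneg_left (pow_le_one₀ (abs_nonneg _) hs) (abs_nonneg _)
        _ = |t - s| := mul_one _
    calc _ ≤ |t * (t ^ n - s ^ n)| + |(t - s) * s ^ n| := abs_add_le _ _
      _ ≤ n * |t - s| + |t - s| := add_le_add h1 h2
      _ = ((n + 1 : ℕ) : ℝ) * |t - s| := by push_cast; ring

theorem fmv_lip {e : ℕ} (c : Fin (e + 2) → ℤ) (H : ℝ) (hc : ∀ j, |(c j : ℝ)| ≤ H) (s t : ℝ)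
    (hs : |s| ≤ 1) (ht : |t| ≤ 1) :
    |fmv c (1 : ℝ) t - fmv c (1 : ℝ) s| ≤ ((e + 2 : ℕ) : ℝ) ^ 3 * H * |t - s| := by
  have hH : 0 ≤ H := (abs_nonneg _).trans (hc 0)
  unfold fmv fm
  rw [← sum_sub_distrib]
  refine (abs_sum_le_sum_abs _ _).trans ?_
  have h1 : ∀ j ∈ (univ : Finset (Fin (e + 2))),
      |(c j : ℝ) * 1 ^ (e + 1 - (j : ℕ)) * t ^ (j : ℕ) -
        (c j : ℝ) * 1 ^ (e + 1 - (j : ℕ)) * s ^ (j : ℕ)| ≤ ((e + 2 : ℕ) : ℝ) * H * |t - s| := by
    intro j _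
    rw [one_pow, mul_one, ← mul_sub, abs_mul]
    have h2 := pow_lip s t hs ht j
    have h3 : ((j : ℕ) : ℝ) ≤ ((e + 2 : ℕ) : ℝ) := by exact_mod_cast j.2.le
    calc |(c j : ℝ)| * |t ^ (j : ℕ) - s ^ (j : ℕ)| ≤ H * (((j : ℕ) : ℝ) * |t - s|) :=
          mul_le_mul (hc j) h2 (abs_nonneg _) hH
      _ ≤ H * (((e + 2 : ℕ) : ℝ) * |t - s|) :=
          mul_le_mul_of_nonneg_left (mul_le_mul_of_nonneg_right h3 (abs_nonneg _)) hH
      _ = _ := by ring
  refine (sum_le_card_nsmul _ _ _ h1).trans ?_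
  rw [nsmul_eq_mul, card_univ, Fintype.card_fin]
  have h4 : (1 : ℝ) ≤ ((e + 2 : ℕ) : ℝ) := by exact_mod_cast (by omega : 1 ≤ e + 2)
  have h5 : 0 ≤ H * |t - s| := mul_nonneg hH (abs_nonneg _)
  have h6 : ((e + 2 : ℕ) : ℝ) ^ 2 ≤ ((e + 2 : ℕ) : ℝ) ^ 3 := pow_le_pow_right₀ h4 (by norm_num)
  calc ((e + 2 : ℕ) : ℝ) * (((e + 2 : ℕ) : ℝ) * H * |t - s|)
      = ((e + 2 : ℕ) : ℝ) ^ 2 * (H * |t - s|) := by ring
    _ ≤ ((e + 2 : ℕ) : ℝ) ^ 3 * (H * |t - s|) := mul_le_mul_of_nonneg_right h6 h5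
    _ = _ := by ring

theorem dr_lip {e : ℕ} (c : Fin (e + 2) → ℤ) (H : ℝ) (hc : ∀ j, |(c j : ℝ)| ≤ H) (s t : ℝ)
    (hs : |s| ≤ 1) (ht : |t| ≤ 1) :
    |dr c t - dr c s| ≤ ((e + 2 : ℕ) : ℝ) ^ 3 * H * |t - s| := by
  have hH : 0 ≤ H := (abs_nonneg _).trans (hc 0)
  unfold dr
  rw [← sum_sub_distrib]
  refine (abs_sum_le_sum_abs _ _).trans ?_
  have h1 : ∀ j ∈ (univ : Finset (Fin (e + 2))),
      |((j : ℕ) : ℝ) * (c j : ℝ) * t ^ ((j : ℕ) - 1) - ((j : ℕ) : ℝ) * (c j : ℝ) * s ^ ((j : ℕ) - 1)|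
        ≤ ((e + 2 : ℕ) : ℝ) ^ 2 * H * |t - s| := by
    intro j _
    rw [← mul_sub, abs_mul, abs_mul, Nat.abs_cast]
    have h2 := pow_lip s t hs ht ((j : ℕ) - 1)
    have h3 : ((j : ℕ) : ℝ) ≤ ((e + 2 : ℕ) : ℝ) := by exact_mod_cast j.2.le
    have h3' : (((j : ℕ) - 1 : ℕ) : ℝ) ≤ ((e + 2 : ℕ) : ℝ) := by
      exact_mod_cast (Nat.sub_le _ _).trans j.2.le
    have h7 : (0 : ℝ) ≤ ((e + 2 : ℕ) : ℝ) := Nat.cast_nonneg _
    calc ((j : ℕ) : ℝ) * |(c j : ℝ)| * |t ^ ((j : ℕ) - 1) - s ^ ((j : ℕ) - 1)|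
        ≤ (((e + 2 : ℕ) : ℝ) * H) * ((((j : ℕ) - 1 : ℕ) : ℝ) * |t - s|) :=
          mul_le_mul (mul_le_mul h3 (hc j) (abs_nonneg _) h7) h2 (abs_nonneg _)
            (mul_nonneg h7 hH)
      _ ≤ (((e + 2 : ℕ) : ℝ) * H) * (((e + 2 : ℕ) : ℝ) * |t - s|) :=
          mul_le_mul_of_nonneg_left (mul_le_mul_of_nonneg_right h3' (abs_nonneg _))
            (mul_nonneg h7 hH)
      _ = _ := by ring
  refine (sum_le_card_nsmul _ _ _ h1).trans ?_
  rw [nsmul_eq_mul, card_univ, Fintype.card_fin]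
  exact le_of_eq (by ring)

/-! ### The two counts at a fixed point -/

/-- The positions of the coefficients. -/
abbrev KX {ι : Type} (e : ι → ℕ) := (k : ι) × Fin (e k + 2)

theorem fmv_split {e : ℕ} (c : Fin (e + 2) → ℤ) (t : ℝ) :
    fmv c (1 : ℝ) t = (c 0 : ℝ) + ∑ j : Fin (e + 1), (c j.succ : ℝ) * t ^ ((j : ℕ) + 1) := by
  unfold fmv fm
  rw [Fin.sum_univ_succ]
  simp

theorem dr_split {e : ℕ} (c : Fin (e + 2) → ℤ) (t : ℝ) :
    dr c t = (c 1 : ℝ) + ∑ j : Fin e, ((j : ℝ) + 2) * (c j.succ.succ : ℝ) * t ^ ((j : ℕ) + 1) := by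
  unfold dr
  rw [Fin.sum_univ_succ, Fin.sum_univ_succ]
  simp only [Fin.val_zero, Nat.cast_zero, zero_mul, zero_add, Fin.succ_zero_eq_one, Fin.val_one,
    Nat.cast_one, one_mul, Nat.sub_self, pow_zero, mul_one]
  refine congrArg _ (sum_congr rfl fun j _ => ?_)
  simp only [Fin.val_succ]
  push_cast
  ring

section count

variable {ι : Type} [Fintype ι] [DecidableEq ι] (e : ι → ℕ)

theorem card_KX : Fintype.card (KX e) = ncI e := by
  rw [Fintype.card_sigma]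
  simp [ncI]

open Classical in
/-- From nested families to flat families. -/
theorem flat_le (H : ℕ) (Q : ((k : ι) → Fin (e k + 2) → ℤ) → Prop) :
    ((BXI e H).filter Q).card ≤
      ((Fintype.piFinset (fun _ : KX e => Icc (-(H : ℤ)) H)).filter
        (fun c => Q (fun k j => c ⟨k, j⟩))).card := by
  refine card_le_card_of_injOn (fun c x => c x.1 x.2) ?_ ?_
  · intro c hc
    have hc' := mem_filter.1 hc
    rw [mem_coe, mem_filter]
    refine ⟨?_, hc'.2⟩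
    rw [Fintype.mem_piFinset]
    intro x
    exact Fintype.mem_piFinset.1 (Fintype.mem_piFinset.1 hc'.1 x.1) x.2
  · intro c _ d _ hcd
    funext k j
    exact congrFun hcd ⟨k, j⟩

open Classical in
theorem count_pair (a b : ι) (hab : a ≠ b) (t : ℝ) (H : ℕ) (B : ℝ) (hB : 0 ≤ B) :
    (((BXI e H).filter (fun c => |fmv (c a) (1 : ℝ) t| ≤ B ∧ |fmv (c b) (1 : ℝ) t| ≤ B)).card : ℝ) *
        ((2 * H + 1 : ℕ) : ℝ) ^ 2 ≤ (2 * B + 1) ^ 2 * ((2 * H + 1 : ℕ) : ℝ) ^ ncI e := by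
  have h1 := count2 (κ := KX e) ⟨a, 0⟩ ⟨b, 0⟩ (fun h => hab (congrArg Sigma.fst h))
    (fun c => ∑ j : Fin (e a + 1), (c ⟨a, j.succ⟩ : ℝ) * t ^ ((j : ℕ) + 1))
    (fun c => ∑ j : Fin (e b + 1), (c ⟨b, j.succ⟩ : ℝ) * t ^ ((j : ℕ) + 1))
    (fun c v => by
      refine sum_congr rfl fun j _ => ?_
      rw [Function.update_of_ne]
      intro h0
      rw [Sigma.mk.injEq] at h0
      exact Fin.succ_ne_zero j (eq_of_heq h0.2))
    (fun c v => by
      refine sum_congr rfl fun j _ => ?_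
      rw [Function.update_of_ne]
      intro h0
      rw [Sigma.mk.injEq] at h0
      exact Fin.succ_ne_zero j (eq_of_heq h0.2))
    (fun c v => by
      refine sum_congr rfl fun j _ => ?_
      rw [Function.update_of_ne]
      intro h0
      exact hab (congrArg Sigma.fst h0).symm) H B hB
  rw [card_KX] at h1
  refine le_trans (mul_le_mul_of_nonneg_right ?_ (by positivity)) h1
  have h2 := flat_le e H (fun c => |fmv (c a) (1 : ℝ) t| ≤ B ∧ |fmv (c b) (1 : ℝ) t| ≤ B)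
  simp only [fmv_split] at h2 ⊢
  exact_mod_cast h2

open Classical in
theorem count_dr (a : ι) (t : ℝ) (H : ℕ) (B : ℝ) (hB : 0 ≤ B) :
    (((BXI e H).filter (fun c => |fmv (c a) (1 : ℝ) t| ≤ B ∧ |dr (c a) t| ≤ B)).card : ℝ) *
        ((2 * H + 1 : ℕ) : ℝ) ^ 2 ≤ (2 * B + 1) ^ 2 * ((2 * H + 1 : ℕ) : ℝ) ^ ncI e := by
  have h1 := count2 (κ := KX e) ⟨a, 0⟩ ⟨a, 1⟩ (fun h0 => by
      rw [Sigma.mk.injEq] at h0
      exact Fin.zero_ne_one (eq_of_heq h0.2))
    (fun c => ∑ j : Fin (e a + 1), (c ⟨a, j.succ⟩ : ℝ) * t ^ ((j : ℕ) + 1))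
    (fun c => ∑ j : Fin (e a), ((j : ℝ) + 2) * (c ⟨a, j.succ.succ⟩ : ℝ) * t ^ ((j : ℕ) + 1))
    (fun c v => by
      refine sum_congr rfl fun j _ => ?_
      rw [Function.update_of_ne]
      intro h0
      rw [Sigma.mk.injEq] at h0
      exact Fin.succ_ne_zero j (eq_of_heq h0.2))
    (fun c v => by
      refine sum_congr rfl fun j _ => ?_
      rw [Function.update_of_ne]
      intro h0
      rw [Sigma.mk.injEq] at h0
      have h3 : j.succ.succ = (1 : Fin (e a + 2)) := eq_of_heq h0.2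
      rw [← Fin.succ_zero_eq_one] at h3
      exact Fin.succ_ne_zero j (Fin.succ_injective _ h3))
    (fun c v => by
      refine sum_congr rfl fun j _ => ?_
      rw [Function.update_of_ne]
      intro h0
      rw [Sigma.mk.injEq] at h0
      exact Fin.succ_ne_zero j.succ (eq_of_heq h0.2)) H B hB
  rw [card_KX] at h1
  refine le_trans (mul_le_mul_of_nonneg_right ?_ (by positivity)) h1
  have h2 := flat_le e H (fun c => |fmv (c a) (1 : ℝ) t| ≤ B ∧ |dr (c a) t| ≤ B)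
  simp only [fmv_split, dr_split] at h2 ⊢
  exact_mod_cast h2

/-- The Lipschitz constant. -/
noncomputable def LL : ℝ := ∑ k : ι, ((e k + 2 : ℕ) : ℝ) ^ 3

theorem LL_nonneg : 0 ≤ LL e := by
  unfold LL
  positivity

theorem le_LL (k : ι) : ((e k + 2 : ℕ) : ℝ) ^ 3 ≤ LL e := by
  unfold LL
  exact single_le_sum (f := fun k : ι => ((e k + 2 : ℕ) : ℝ) ^ 3) (fun _ _ => by positivity)
    (mem_univ k)

theorem rdeg_grid (K : ℕ) (hK : 1 ≤ K) (H : ℕ) (c : (k : ι) → Fin (e k + 2) → ℤ)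
    (hc : c ∈ BXI e H) (hd : rdeg (1 / (K : ℝ) * H) c) :
    ∃ j ∈ Icc (-(K : ℤ)) K,
      (∃ a b, a ≠ b ∧ |fmv (c a) (1 : ℝ) ((j : ℝ) / K)| ≤ (LL e + 1) * H / K ∧
        |fmv (c b) (1 : ℝ) ((j : ℝ) / K)| ≤ (LL e + 1) * H / K) ∨
      ∃ a, |fmv (c a) (1 : ℝ) ((j : ℝ) / K)| ≤ (LL e + 1) * H / K ∧
        |dr (c a) ((j : ℝ) / K)| ≤ (LL e + 1) * H / K := by
  have hcb : ∀ k j, |((c k j : ℤ) : ℝ)| ≤ (H : ℝ) := by
    intro k j
    have h1 := mem_Icc.1 (Fintype.mem_piFinset.1 (Fintype.mem_piFinset.1 hc k) j)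
    rw [abs_le]
    constructor
    · exact_mod_cast h1.1
    · exact_mod_cast h1.2
  obtain ⟨t, ht, hd⟩ := hd
  have hK0 : (0 : ℝ) < K := by exact_mod_cast (by omega : 0 < K)
  have hH0 : (0 : ℝ) ≤ H := Nat.cast_nonneg _
  obtain ⟨ht1, ht2⟩ := abs_le.1 ht
  have hj1 : -(K : ℤ) ≤ ⌊t * K⌋ := by
    rw [Int.le_floor]
    push_cast
    nlinarith
  have hj2 : ⌊t * K⌋ ≤ (K : ℤ) := by
    have h1 : (⌊t * K⌋ : ℝ) ≤ K := (Int.floor_le _).trans (by nlinarith)
    exact_mod_cast h1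
  have hs : |((⌊t * K⌋ : ℤ) : ℝ) / K| ≤ 1 := by
    rw [abs_div, abs_of_pos hK0, div_le_one hK0, abs_le]
    constructor
    · exact_mod_cast hj1
    · exact_mod_cast hj2
  have hdist : |((⌊t * K⌋ : ℤ) : ℝ) / K - t| ≤ 1 / K := by
    have h1 := Int.floor_le (t * K)
    have h2 := (Int.lt_floor_add_one (t * K)).le
    rw [abs_le]
    constructor
    · rw [← sub_nonneg]
      have : ((⌊t * K⌋ : ℤ) : ℝ) / K - t - -(1 / K) = (((⌊t * K⌋ : ℤ) : ℝ) + 1 - t * K) / K := by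
        field_simp
        ring
      rw [this]
      exact div_nonneg (by linarith) hK0.le
    · have h3 : ((⌊t * K⌋ : ℤ) : ℝ) / K ≤ t := (div_le_iff₀ hK0).2 h1
      have h4 : (0 : ℝ) ≤ 1 / K := by positivity
      linarith
  have key1 : ∀ a, |fmv (c a) (1 : ℝ) t| ≤ 1 / (K : ℝ) * H →
      |fmv (c a) (1 : ℝ) (((⌊t * K⌋ : ℤ) : ℝ) / K)| ≤ (LL e + 1) * H / K := by
    intro a ha
    have h1 := fmv_lip (c a) H (hcb a) t (((⌊t * K⌋ : ℤ) : ℝ) / K) ht hs
    have h2 : ((e a + 2 : ℕ) : ℝ) ^ 3 * H * |((⌊t * K⌋ : ℤ) : ℝ) / K - t| ≤ LL e * H * (1 / K) :=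
      mul_le_mul (mul_le_mul_of_nonneg_right (le_LL e a) hH0) hdist (abs_nonneg _)
        (mul_nonneg (LL_nonneg e) hH0)
    have h3 := abs_sub_abs_le_abs_sub (fmv (c a) (1 : ℝ) (((⌊t * K⌋ : ℤ) : ℝ) / K))
      (fmv (c a) (1 : ℝ) t)
    have h4 : (LL e + 1) * H / K = LL e * H * (1 / K) + 1 / (K : ℝ) * H := by ring
    rw [h4]
    linarith
  have key2 : ∀ a, |dr (c a) t| ≤ 1 / (K : ℝ) * H →
      |dr (c a) (((⌊t * K⌋ : ℤ) : ℝ) / K)| ≤ (LL e + 1) * H / K := by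
    intro a ha
    have h1 := dr_lip (c a) H (hcb a) t (((⌊t * K⌋ : ℤ) : ℝ) / K) ht hs
    have h2 : ((e a + 2 : ℕ) : ℝ) ^ 3 * H * |((⌊t * K⌋ : ℤ) : ℝ) / K - t| ≤ LL e * H * (1 / K) :=
      mul_le_mul (mul_le_mul_of_nonneg_right (le_LL e a) hH0) hdist (abs_nonneg _)
        (mul_nonneg (LL_nonneg e) hH0)
    have h3 := abs_sub_abs_le_abs_sub (dr (c a) (((⌊t * K⌋ : ℤ) : ℝ) / K)) (dr (c a) t)
    have h4 : (LL e + 1) * H / K = LL e * H * (1 / K) + 1 / (K : ℝ) * H := by ring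
    rw [h4]
    linarith
  refine ⟨⌊t * K⌋, mem_Icc.2 ⟨hj1, hj2⟩, ?_⟩
  rcases hd with ⟨a, b, hab, h1, h2⟩ | ⟨a, h1, h2⟩
  · exact Or.inl ⟨a, b, hab, key1 a h1, key1 b h2⟩
  · exact Or.inr ⟨a, key1 a h1, key2 a h2⟩

open Classical in
theorem count_rdeg (K : ℕ) (hK : 1 ≤ K) (H : ℕ) (hH : K ≤ H) :
    (((BXI e H).filter (fun c => rdeg (1 / (K : ℝ) * H) c)).card : ℝ) ≤
      (2 * K + 1) * (((Fintype.card ι : ℝ) ^ 2 + Fintype.card ι) *
        (((2 * LL e + 3) / K) ^ 2 * ((2 * H + 1 : ℕ) : ℝ) ^ ncI e)) := by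
  set B : ℝ := (LL e + 1) * H / K with hB
  set X : ℝ := ((2 * LL e + 3) / K) ^ 2 * ((2 * H + 1 : ℕ) : ℝ) ^ ncI e with hX
  have hL := LL_nonneg e
  have hK0 : (0 : ℝ) < K := by exact_mod_cast (by omega : 0 < K)
  have hKH : (K : ℝ) ≤ H := by exact_mod_cast hH
  have hH0 : (0 : ℝ) ≤ H := Nat.cast_nonneg _
  have hB0 : 0 ≤ B := by positivity
  have hX0 : 0 ≤ X := by positivity
  have hN : (0 : ℝ) < ((2 * H + 1 : ℕ) : ℝ) := by exact_mod_cast (by omega : 0 < 2 * H + 1)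
  have hBN : 2 * B + 1 ≤ (2 * LL e + 3) / K * ((2 * H + 1 : ℕ) : ℝ) := by
    rw [div_mul_eq_mul_div, le_div_iff₀ hK0]
    have h1 : (2 * B + 1) * K = 2 * (LL e + 1) * H + K := by
      rw [hB]
      field_simp
    rw [h1]
    push_cast
    nlinarith
  have hBN2 : (2 * B + 1) ^ 2 ≤ ((2 * LL e + 3) / K) ^ 2 * ((2 * H + 1 : ℕ) : ℝ) ^ 2 := by
    rw [← mul_pow]
    exact pow_le_pow_left₀ (by positivity) hBN 2
  have hconv : ∀ n : ℕ, (n : ℝ) * ((2 * H + 1 : ℕ) : ℝ) ^ 2 ≤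
      (2 * B + 1) ^ 2 * ((2 * H + 1 : ℕ) : ℝ) ^ ncI e → (n : ℝ) ≤ X := by
    intro n hn
    have h1 : (n : ℝ) * ((2 * H + 1 : ℕ) : ℝ) ^ 2 ≤ X * ((2 * H + 1 : ℕ) : ℝ) ^ 2 := by
      refine hn.trans ?_
      refine (mul_le_mul_of_nonneg_right hBN2 (by positivity)).trans (le_of_eq ?_)
      rw [hX]
      ring
    exact le_of_mul_le_mul_right h1 (by positivity)
  have hsub : (BXI e H).filter (fun c => rdeg (1 / (K : ℝ) * H) c) ⊆
      (Icc (-(K : ℤ)) K).biUnion (fun j =>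
        ((univ : Finset (ι × ι)).filter (fun ab => ab.1 ≠ ab.2)).biUnion (fun ab =>
          (BXI e H).filter (fun c => |fmv (c ab.1) (1 : ℝ) ((j : ℝ) / K)| ≤ B ∧
            |fmv (c ab.2) (1 : ℝ) ((j : ℝ) / K)| ≤ B)) ∪
        (univ : Finset ι).biUnion (fun a =>
          (BXI e H).filter (fun c => |fmv (c a) (1 : ℝ) ((j : ℝ) / K)| ≤ B ∧
            |dr (c a) ((j : ℝ) / K)| ≤ B))) := by
    intro c hc
    obtain ⟨hc1, hc2⟩ := mem_filter.1 hc
    obtain ⟨j, hj, h⟩ := rdeg_grid e K hK H c hc1 hc2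
    rw [mem_biUnion]
    refine ⟨j, hj, ?_⟩
    rw [mem_union]
    rcases h with ⟨a, b, hab, h1, h2⟩ | ⟨a, h1, h2⟩
    · left
      rw [mem_biUnion]
      exact ⟨(a, b), mem_filter.2 ⟨mem_univ _, hab⟩, mem_filter.2 ⟨hc1, h1, h2⟩⟩
    · right
      rw [mem_biUnion]
      exact ⟨a, mem_univ _, mem_filter.2 ⟨hc1, h1, h2⟩⟩
  have hcj : ∀ j ∈ Icc (-(K : ℤ)) K, ((((univ : Finset (ι × ι)).filter
        (fun ab => ab.1 ≠ ab.2)).biUnion (fun ab =>
          (BXI e H).filter (fun c => |fmv (c ab.1) (1 : ℝ) ((j : ℝ) / K)| ≤ B ∧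
            |fmv (c ab.2) (1 : ℝ) ((j : ℝ) / K)| ≤ B)) ∪
        (univ : Finset ι).biUnion (fun a =>
          (BXI e H).filter (fun c => |fmv (c a) (1 : ℝ) ((j : ℝ) / K)| ≤ B ∧
            |dr (c a) ((j : ℝ) / K)| ≤ B))).card : ℝ) ≤
      ((Fintype.card ι : ℝ) ^ 2 + Fintype.card ι) * X := by
    intro j _
    refine (Nat.cast_le.2 (card_union_le _ _)).trans ?_
    rw [Nat.cast_add, add_mul]
    refine add_le_add ?_ ?_
    · refine (Nat.cast_le.2 card_biUnion_le).trans ?_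
      rw [Nat.cast_sum]
      refine (sum_le_card_nsmul _ _ X fun ab hab => ?_).trans ?_
      · exact hconv _ (count_pair e ab.1 ab.2 (mem_filter.1 hab).2 ((j : ℝ) / K) H B hB0)
      · rw [nsmul_eq_mul]
        refine mul_le_mul_of_nonneg_right ?_ hX0
        have h1 : ((univ : Finset (ι × ι)).filter (fun ab => ab.1 ≠ ab.2)).card ≤
            Fintype.card ι ^ 2 := by
          refine (card_filter_le _ _).trans ?_
          rw [card_univ, Fintype.card_prod, sq]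
        exact_mod_cast h1
    · refine (Nat.cast_le.2 card_biUnion_le).trans ?_
      rw [Nat.cast_sum]
      refine (sum_le_card_nsmul _ _ X fun a _ => ?_).trans ?_
      · exact hconv _ (count_dr e a ((j : ℝ) / K) H B hB0)
      · rw [nsmul_eq_mul, card_univ]
  refine (Nat.cast_le.2 (card_le_card hsub)).trans ?_
  refine (Nat.cast_le.2 card_biUnion_le).trans ?_
  rw [Nat.cast_sum]
  refine (sum_le_card_nsmul _ _ _ hcj).trans ?_
  rw [nsmul_eq_mul]
  refine mul_le_mul_of_nonneg_right (le_of_eq ?_) (by positivity)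
  have h1 : (Icc (-(K : ℤ)) K).card = 2 * K + 1 := by
    rw [Int.card_Icc]
    omega
  rw [h1]
  push_cast
  ring

open Classical in
theorem rev_le (H : ℕ) (Q : ((k : ι) → Fin (e k + 2) → ℤ) → Prop) :
    ((BXI e H).filter (fun c => Q (fun a => rv (c a)))).card ≤ ((BXI e H).filter Q).card := by
  refine card_le_card_of_injOn (fun c a => rv (c a)) ?_ ?_
  · intro c hc
    obtain ⟨hc1, hc2⟩ := mem_filter.1 hc
    rw [mem_coe, mem_filter]
    refine ⟨?_, hc2⟩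
    unfold BXI
    rw [Fintype.mem_piFinset]
    intro k
    rw [Fintype.mem_piFinset]
    intro j
    exact Fintype.mem_piFinset.1 (Fintype.mem_piFinset.1 hc1 k) (Fin.rev j)
  · intro c _ d _ hcd
    funext k j
    have := congrFun (congrFun hcd k) (Fin.rev j)
    simpa [rv] using this

end count

/-- Part RDC: few families are nearly degenerate over the real numbers. -/
theorem rdc_ : S_RDC := by
  classical
  intro ι _ _ e η hη
  set C : ℝ := 6 * ((Fintype.card ι : ℝ) ^ 2 + Fintype.card ι) * (2 * LL e + 3) ^ 2 with hC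
  have hL := LL_nonneg e
  have hC0 : 0 ≤ C := by positivity
  obtain ⟨K, hK⟩ := exists_nat_ge (C / η + 1)
  have hCη : 0 ≤ C / η := by positivity
  have hK1 : (1 : ℝ) ≤ K := by linarith
  have hK1' : 1 ≤ K := by exact_mod_cast hK1
  have hK0 : (0 : ℝ) < K := by linarith
  have hCK : C / K ≤ η := by
    rw [div_le_iff₀ hK0]
    have h1 : C / η ≤ K := by linarith
    have h2 := (div_le_iff₀ hη).1 h1
    linarith
  refine ⟨1 / (K : ℝ), by positivity, K, fun H hH => ?_⟩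
  set N : ℝ := ((2 * H + 1 : ℕ) : ℝ) ^ ncI e with hN
  have hN0 : 0 ≤ N := by positivity
  have h1 := count_rdeg e K hK1' H hH
  have h2 := rev_le e H (fun c => rdeg (1 / (K : ℝ) * H) c)
  have h3 : ((BXI e H).filter (fun c => rBad (1 / (K : ℝ) * H) c)).card ≤
      ((BXI e H).filter (fun c => rdeg (1 / (K : ℝ) * H) c)).card +
      ((BXI e H).filter (fun c => rdeg (1 / (K : ℝ) * H) (fun a => rv (c a)))).card := by
    refine le_trans (card_le_card ?_) (card_union_le _ _)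
    intro c hc
    obtain ⟨hc1, hc2⟩ := mem_filter.1 hc
    rw [mem_union, mem_filter, mem_filter]
    rcases hc2 with h | h
    · exact Or.inl ⟨hc1, h⟩
    · exact Or.inr ⟨hc1, h⟩
  have h4 : (((BXI e H).filter (fun c => rBad (1 / (K : ℝ) * H) c)).card : ℝ) ≤
      2 * (((BXI e H).filter (fun c => rdeg (1 / (K : ℝ) * H) c)).card : ℝ) := by
    have : ((BXI e H).filter (fun c => rBad (1 / (K : ℝ) * H) c)).card ≤
        2 * ((BXI e H).filter (fun c => rdeg (1 / (K : ℝ) * H) c)).card := by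
      omega
    exact_mod_cast this
  have h5 : 2 * ((2 * (K : ℝ) + 1) * (((Fintype.card ι : ℝ) ^ 2 + Fintype.card ι) *
      (((2 * LL e + 3) / K) ^ 2 * N))) ≤ C / K * N := by
    have e1 : 2 * ((2 * (K : ℝ) + 1) * (((Fintype.card ι : ℝ) ^ 2 + Fintype.card ι) *
      (((2 * LL e + 3) / K) ^ 2 * N))) = (2 * (2 * (K : ℝ) + 1) / K) *
        ((((Fintype.card ι : ℝ) ^ 2 + Fintype.card ι) * (2 * LL e + 3) ^ 2) / K * N) := by
      field_simp
    rw [e1]
    have e2 : C / K * N = 6 *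
        ((((Fintype.card ι : ℝ) ^ 2 + Fintype.card ι) * (2 * LL e + 3) ^ 2) / K * N) := by
      rw [hC]
      ring
    rw [e2]
    refine mul_le_mul_of_nonneg_right ?_ (by positivity)
    rw [div_le_iff₀ hK0]
    linarith
  calc (((BXI e H).filter (fun c => rBad (1 / (K : ℝ) * H) c)).card : ℝ)
      ≤ 2 * (((BXI e H).filter (fun c => rdeg (1 / (K : ℝ) * H) c)).card : ℝ) := h4
    _ ≤ 2 * ((2 * (K : ℝ) + 1) * (((Fintype.card ι : ℝ) ^ 2 + Fintype.card ι) *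
      (((2 * LL e + 3) / K) ^ 2 * N))) := by
        exact mul_le_mul_of_nonneg_left h1 (by norm_num)
    _ ≤ C / K * N := h5
    _ ≤ η * N := mul_le_mul_of_nonneg_right hCK hN0

end Pool.Agent.N523.DW
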